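import Mathlib

namespace Pool.Agent.Results.MP_c13936_co.Counter

open SimpleGraph

variable {V : Type}

/-- `G` has a circuit all of whose vertices lie in `X` -/
def HasCircuitIn (G : SimpleGraph V) (X : Set V) : Prop :=
  ∃ (v : V) (w : G.Walk v v), w.IsCycle ∧ ∀ x ∈ w.support, x ∈ X

/-- the edges of `G` between `X` and its complement -/
def cut (G : SimpleGraph V) (X : Set V) : Set (Sym2 V) :=
  {e | ∃ u v, G.Adj u v ∧ u ∈ X ∧ v ∉ X ∧ e = s(u, v)}

/-- connected, two disjoint circuits, and no cut with fewer than `k` edges has a circuit on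
both sides -/
def CycConn (G : SimpleGraph V) (k : ℕ) : Prop :=
  G.Connected ∧ (∃ X, HasCircuitIn G X ∧ HasCircuitIn G Xᶜ) ∧
    ∀ X, HasCircuitIn G X → HasCircuitIn G Xᶜ → k ≤ (cut G X).ncard

/-- the edges in `S` form a disjoint union of paths -/
def PathSystem (S : Set (Sym2 V)) : Prop :=
  (fromEdgeSet S).IsAcyclic ∧ ∀ v, ((fromEdgeSet S).neighborSet v).ncard ≤ 2

def g (u : Fin 14) : Fin 14 := if u.val % 2 = 0 then u + 5 else u + 9

def H : SimpleGraph (Fin 14) where
  Adj u v := v = u + 1 ∨ u = v + 1 ∨ v = g u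
  symm := ⟨by decide⟩
  loopless := ⟨by decide⟩

instance : DecidableRel H.Adj := fun u v => by unfold H; infer_instance

def EL : List (Fin 14 × Fin 14) :=
  [(0, 1), (1, 2), (2, 3), (3, 4), (4, 5), (5, 6), (6, 7), (7, 8), (8, 9), (9, 10), (10, 11),
    (11, 12), (12, 13), (13, 0), (0, 5), (2, 7), (4, 9), (6, 11), (8, 13), (10, 1), (12, 3)]

def VL : List (Fin 14) := [0, 1, 2, 3, 4, 5, 6, 7, 8, 9, 10, 11, 12, 13]

def ok (x0 x1 x2 x3 x4 x5 x6 x7 x8 x9 x10 x11 x12 x13 : Bool) : Bool :=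
  let c := [x0, x1, x2, x3, x4, x5, x6, x7, x8, x9, x10, x11, x12, x13].countP id
  Nat.ble c 3 || (Nat.ble 11 c || Nat.ble 6 (List.countP id
    [x0 != x1, x1 != x2, x2 != x3, x3 != x4, x4 != x5, x5 != x6, x6 != x7, x7 != x8, x8 != x9,
    x9 != x10, x10 != x11, x11 != x12, x12 != x13, x13 != x0, x0 != x5, x2 != x7, x4 != x9,
    x6 != x11, x8 != x13, x10 != x1, x12 != x3]))

set_option synthInstance.maxSize 4000 in
lemma kb : ∀ x0 x1 x2 x3 x4 x5 x6 x7 x8 x9 x10 x11 x12 x13,
    ok x0 x1 x2 x3 x4 x5 x6 x7 x8 x9 x10 x11 x12 x13 = true := by decide +kernel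

def cc (p : Fin 14 → Bool) : List (Fin 14 × Fin 14) := EL.filter fun e => p e.1 != p e.2

lemma key (p : Fin 14 → Bool) (h1 : 4 ≤ (VL.filter p).length) (h2 : (VL.filter p).length ≤ 10) :
    6 ≤ (cc p).length := by
  have : (Nat.ble ((VL.map p).countP id) 3 || (Nat.ble 11 ((VL.map p).countP id) ||
      Nat.ble 6 ((EL.map fun e => p e.1 != p e.2).countP id))) = true :=
    kb (p 0) (p 1) (p 2) (p 3) (p 4) (p 5) (p 6) (p 7) (p 8) (p 9) (p 10) (p 11) (p 12) (p 13)
  rw [List.countP_map, List.countP_map, List.countP_eq_length_filter,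
    List.countP_eq_length_filter] at this
  simp only [Bool.or_eq_true, Nat.ble_eq] at this
  rcases this with h | h | h
  · exact absurd (h1.trans h) (by omega)
  · exact absurd (h.trans h2) (by omega)
  · exact h

lemma four {X : Finset (Fin 14)} (h : HasCircuitIn H X) : 4 ≤ X.card := by
  obtain ⟨v, w, hw, hX⟩ := h
  have h1 : w.length ≤ X.card := by
    have := List.toFinset_card_of_nodup hw.support_nodup
    rw [List.length_tail, Walk.length_support, Nat.add_sub_cancel] at this
    rw [← this]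
    exact Finset.card_le_card fun x hx => hX x (List.mem_of_mem_tail (List.mem_toFinset.1 hx))
  have h3 := hw.three_le_length
  rcases w with _ | ⟨e1, _ | ⟨e2, _ | ⟨e3, _ | ⟨e4, w⟩⟩⟩⟩
  · simp at h3
  · simp at h3
  · simp at h3
  · exact absurd e3 ((by decide : ∀ a b c, H.Adj a b → H.Adj b c → ¬ H.Adj c a) _ _ _ e1 e2)
  · simp at h1; omega

lemma cyc : CycConn H 6 := by
  classical
  refine ⟨by decide +kernel, ⟨{x | x.val < 6}, ?_, ?_⟩, fun X h1 h2 => ?_⟩
  · refine ⟨0, .cons (v := 1) (by decide) (.cons (v := 2) (by decide) (.cons (v := 3) (by decide)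
      (.cons (v := 4) (by decide) (.cons (v := 5) (by decide) (.cons (by decide) .nil))))), ?_, ?_⟩
    · simp [Walk.isCycle_def, Walk.isTrail_def]
    · simp
  · refine ⟨6, .cons (v := 7) (by decide) (.cons (v := 8) (by decide) (.cons (v := 9) (by decide)
      (.cons (v := 10) (by decide) (.cons (v := 11) (by decide) (.cons (by decide) .nil))))), ?_, ?_⟩
    · simp [Walk.isCycle_def, Walk.isTrail_def]
    · simp
  let Y : Finset (Fin 14) := Finset.univ.filter (· ∈ X)
  let p : Fin 14 → Bool := fun i => decide (i ∈ X)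
  have hc : (VL.filter p).length = Y.card := by
    rw [← List.toFinset_card_of_nodup ((by decide : VL.Nodup).filter _)]
    congr 1; ext x; simp [Y, p, (by decide : ∀ x, x ∈ VL) x]
  have a1 : 4 ≤ Y.card := four (by simpa [Y] using h1)
  have a2 : 4 ≤ Yᶜ.card := four (X := Yᶜ) (by convert h2; ext; simp [Y])
  rw [Finset.card_compl, Fintype.card_fin] at a2
  have k := key p (by omega) (by omega)
  have nd : (EL.map fun e => s(e.1, e.2)).Nodup := by decide +kernel
  have ad : ∀ e ∈ EL, H.Adj e.1 e.2 := by decide +kernel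
  have nd2 : ((cc p).map fun e => s(e.1, e.2)).Nodup :=
    nd.sublist (List.filter_sublist.map _)
  rw [← List.length_map (fun e => s(e.1, e.2)), ← List.toFinset_card_of_nodup nd2,
    ← Set.ncard_coe_finset] at k
  refine k.trans (Set.ncard_le_ncard (fun e he => ?_) (Set.toFinite _))
  simp only [List.coe_toFinset, List.mem_map, Set.mem_setOf_eq, cc, List.mem_filter, p] at he
  obtain ⟨⟨u, v⟩, ⟨b1, b2⟩, rfl⟩ := he
  by_cases hu : u ∈ X
  · exact ⟨u, v, ad _ b1, hu, by simpa [hu] using b2, rfl⟩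
  · exact ⟨v, u, (ad _ b1).symm, by simpa [hu] using b2, hu, Sym2.eq_swap⟩

def S0 : Finset (Sym2 (Fin 14)) := {s(0, 13), s(0, 5), s(1, 10), s(2, 3), s(2, 7)}

theorem result : ∃ (n k : ℕ) (G : SimpleGraph (Fin n)) (S : Set (Sym2 (Fin n))),
    (∀ v, (G.neighborSet v).ncard = 3) ∧ CycConn G k ∧ S ⊆ G.edgeSet ∧ S.ncard = k - 1 ∧
      PathSystem S ∧ ¬ ∃ (v : Fin n) (w : G.Walk v v), w.IsCycle ∧ ∀ e ∈ S, e ∈ w.edges := by
  refine ⟨14, 6, H, S0, fun v => ?_, cyc, ?_, ?_, ⟨?_, fun v => ?_⟩, ?_⟩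
  · rw [Set.ncard_eq_toFinset_card']; revert v; decide +kernel
  · intro e he
    simp only [S0, Finset.coe_insert, Finset.coe_singleton, Set.mem_insert_iff,
      Set.mem_singleton_iff] at he
    rcases he with rfl | rfl | rfl | rfl | rfl <;> decide
  · rw [Set.ncard_coe_finset]; decide
  · intro v w hw
    have c : ∀ a b c d : Fin 14, s(a, b) ∈ S0 → s(b, c) ∈ S0 → s(c, d) ∈ S0 → a = c ∨ b = d := by
      decide +kernel
    have h3 := hw.three_le_length
    have hn := hw.isTrail.edges_nodup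
    rcases w with _ | ⟨e1, _ | ⟨e2, _ | ⟨e3, w⟩⟩⟩
    · simp at h3
    · simp at h3
    · simp at h3
    · rcases c _ _ _ _ ((fromEdgeSet_adj _).1 e1).1 ((fromEdgeSet_adj _).1 e2).1
        ((fromEdgeSet_adj _).1 e3).1 with rfl | rfl <;> simp [Sym2.eq_swap] at hn
  · have : (fromEdgeSet (S0 : Set (Sym2 (Fin 14)))).neighborSet v ⊆
        (Finset.univ.filter fun u => s(v, u) ∈ S0 : Finset (Fin 14)) := fun u hu => by
      simpa using ((fromEdgeSet_adj _).1 hu).1
    refine (Set.ncard_le_ncard this (Set.toFinite _)).trans ?_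
    rw [Set.ncard_coe_finset]; clear this; revert v; decide +kernel
  · rintro ⟨v, w, hw, hS⟩
    have a : ∀ x y, s(x, y) ∈ S0 → y ∈ w.toSubgraph.neighborSet x := fun x y h =>
      Walk.adj_toSubgraph_iff_mem_edges.2 (hS _ h)
    have two : ∀ x y, y ∈ w.toSubgraph.neighborSet x → (w.toSubgraph.neighborSet x).ncard = 2 :=
      fun x y h => hw.ncard_neighborSet_toSubgraph_eq_two
        ((Walk.mem_verts_toSubgraph w).1 (w.toSubgraph.edge_vert h))
    have no : ∀ x y z : Fin 14, s(x, y) ∈ S0 → s(x, z) ∈ S0 → ({y, z, 1} : Finset (Fin 14)).card = 3 →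
        x ∉ w.toSubgraph.neighborSet 1 := fun x y z h1 h2 h3 h4 => by
      have : (({y, z, 1} : Finset (Fin 14)) : Set (Fin 14)) ⊆ w.toSubgraph.neighborSet x := by
        intro t ht
        simp only [Finset.coe_insert, Finset.coe_singleton, Set.mem_insert_iff,
          Set.mem_singleton_iff] at ht
        rcases ht with rfl | rfl | rfl
        · exact a _ _ h1
        · exact a _ _ h2
        · exact h4.symm
      have h5 := Set.ncard_le_ncard this (Set.toFinite _)
      rw [Set.ncard_coe_finset, h3, two _ _ (a _ _ h1)] at h5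
      omega
    have h1 : w.toSubgraph.neighborSet 1 ⊆ {10} := fun t ht => by
      rcases (by decide : ∀ t, H.Adj 1 t → t = 0 ∨ t = 2 ∨ t = 10) t (w.toSubgraph.adj_sub ht) with
        rfl | rfl | rfl
      · exact absurd ht (no 0 13 5 (by decide) (by decide) (by decide))
      · exact absurd ht (no 2 3 7 (by decide) (by decide) (by decide))
      · rfl
    have h2 := Set.ncard_le_ncard h1 (Set.toFinite _)
    rw [two 1 10 (a _ _ (by decide)), Set.ncard_singleton] at h2
    omega

end Pool.Agent.Results.MP_c13936_co.Counter
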